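import Pool.Agent.H37.Chip

set_option autoImplicit false

open Pool.Agent.H38.NP Pool.Agent.H37.Chip

/-- The chip-firing halting problem for simple digraphs is NP-hard. -/
theorem Pool.Agent.Results.MP_85a811_lc.Hard.result :
    NPHard (lang fun p : ℕ × List (ℕ × ℕ) × List (Bool × Bin) =>
      Terminating (simple p.1 p.2.1) (chips p.1 p.2.2)) :=
  halt_hard
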